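import Pool.Agent.Work.MP_2b8540_co.NB.Main

/-!
# Small 2-bases of the Boolean cube have many members with few Hamming neighbours

A set of vectors of `{0,1}^N` is regarded as a family `F` of subsets of `Fin N`; Boolean addition is
the union.  Let `m = |F|`, let `u` be the number of sets which are unions of two members of `F`, and
let `f` be any real function on sets.  If `a` has `p(a)` Hamming neighbours in `F` at which `f` is
larger than at `a`, and `e(a)` Hamming neighbours in `F` with the same value of `f`, then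
`4 (u - m)^2 ≤ 2^N m ∑_{a ∈ F} (1 + 2^{-p(a)} (2 - 2^{-e(a)}) / (e(a) + 1))`.
The right-hand side is `2^(N+1) m^2` (the counting bound) if there are no neighbours.  If almost all
members have many neighbours the right-hand side is about `2^N m^2`, and the inequality gives
`m ≥ (2 - o(1)) 2^n` for `N = 2n`, which is the size of the known 2-basis.
-/

namespace Pool.Agent.Results.MP_2b8540_co.Neighbours

open Finset

/-- The sets which are unions of two (not necessarily distinct) members of `F`. -/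
noncomputable def unions {N : ℕ} (F : Finset (Finset (Fin N))) : Finset (Finset (Fin N)) :=
  open Classical in
  (Finset.univ : Finset (Finset (Fin N))).filter fun S => ∃ a ∈ F, ∃ b ∈ F, a ∪ b = S

/-- The Hamming neighbours of `a` in `F`: the coordinates `i` such that `a` with `i` switched is
in `F`. -/
noncomputable def neighbours {N : ℕ} (F : Finset (Finset (Fin N))) (a : Finset (Fin N)) :
    Finset (Fin N) :=
  open Classical in
  (Finset.univ : Finset (Fin N)).filter fun i => symmDiff a {i} ∈ F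

/-- The upper neighbours: the coordinates `i` not in `a` such that `a ∪ {i}` is in `F`. -/
noncomputable def upper {N : ℕ} (F : Finset (Finset (Fin N))) (a : Finset (Fin N)) :
    Finset (Fin N) :=
  open Classical in
  (Finset.univ : Finset (Fin N)).filter fun i => i ∉ a ∧ insert i a ∈ F

/-- The lower neighbours: the coordinates `i` in `a` such that `a \ {i}` is in `F`. -/
noncomputable def lower {N : ℕ} (F : Finset (Finset (Fin N))) (a : Finset (Fin N)) :
    Finset (Fin N) :=
  open Classical in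
  (Finset.univ : Finset (Fin N)).filter fun i => i ∈ a ∧ a.erase i ∈ F

/-- The Hamming neighbours at which `f` is larger than at `a`. -/
noncomputable def rising {N : ℕ} (F : Finset (Finset (Fin N))) (f : Finset (Fin N) → ℝ)
    (a : Finset (Fin N)) : Finset (Fin N) :=
  open Classical in
  (Finset.univ : Finset (Fin N)).filter fun i => symmDiff a {i} ∈ F ∧ f a < f (symmDiff a {i})

/-- The Hamming neighbours at which `f` has the same value as at `a`. -/
noncomputable def level {N : ℕ} (F : Finset (Finset (Fin N))) (f : Finset (Fin N) → ℝ)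
    (a : Finset (Fin N)) : Finset (Fin N) :=
  open Classical in
  (Finset.univ : Finset (Fin N)).filter fun i => symmDiff a {i} ∈ F ∧ f (symmDiff a {i}) = f a

private lemma main {N : ℕ} (F : Finset (Finset (Fin N))) (f : Finset (Fin N) → ℝ) :
    4 * (((unions F).card : ℝ) - F.card) ^ 2 ≤ 2 ^ N * F.card * ∑ a ∈ F,
      (1 + (1 / 2 : ℝ) ^ (rising F f a).card *
        ((2 - (1 / 2 : ℝ) ^ (level F f a).card) / ((level F f a).card + 1))) :=
  Pool.Agent.Work.MP_2b8540_co.NB.neighbours F f

private lemma sd_of_notMem {N : ℕ} {a : Finset (Fin N)} {i : Fin N} (h : i ∉ a) :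
    symmDiff a {i} = insert i a := by
  ext x
  rw [mem_symmDiff, mem_singleton, mem_insert]
  by_cases hx : x = i
  · subst hx
    tauto
  · tauto

private lemma sd_of_mem {N : ℕ} {a : Finset (Fin N)} {i : Fin N} (h : i ∈ a) :
    symmDiff a {i} = a.erase i := by
  ext x
  rw [mem_symmDiff, mem_singleton, mem_erase]
  by_cases hx : x = i
  · subst hx
    tauto
  · tauto

/-! ### The function of the size -/

private lemma rising_card {N : ℕ} (F : Finset (Finset (Fin N))) (a : Finset (Fin N)) :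
    rising F (fun X => (X.card : ℝ)) a = upper F a := by
  classical
  ext i
  unfold rising upper
  rw [mem_filter, mem_filter]
  simp only [mem_univ, true_and]
  by_cases h : i ∈ a
  · rw [sd_of_mem h, card_erase_of_mem h]
    constructor
    · rintro ⟨-, h2⟩
      exfalso
      have h3 : a.card < a.card - 1 := by exact_mod_cast h2
      omega
    · exact fun h2 => absurd h h2.1
  · rw [sd_of_notMem h, card_insert_of_notMem h]
    constructor
    · exact fun h2 => ⟨h, h2.1⟩
    · intro h2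
      refine ⟨h2.2, ?_⟩
      push_cast
      linarith

private lemma level_card {N : ℕ} (F : Finset (Finset (Fin N))) (a : Finset (Fin N)) :
    level F (fun X => (X.card : ℝ)) a = ∅ := by
  classical
  unfold level
  rw [filter_eq_empty_iff]
  rintro i - ⟨-, h2'⟩
  have h2 : (symmDiff a {i}).card = a.card := Nat.cast_injective (R := ℝ) h2'
  by_cases h : i ∈ a
  · rw [sd_of_mem h, card_erase_of_mem h] at h2
    have h4 := card_pos.2 ⟨i, h⟩
    omega
  · rw [sd_of_notMem h, card_insert_of_notMem h] at h2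
    omega

private lemma rising_neg {N : ℕ} (F : Finset (Finset (Fin N))) (a : Finset (Fin N)) :
    rising F (fun X => -(X.card : ℝ)) a = lower F a := by
  classical
  ext i
  unfold rising lower
  rw [mem_filter, mem_filter]
  simp only [mem_univ, true_and]
  by_cases h : i ∈ a
  · rw [sd_of_mem h]
    constructor
    · exact fun h2 => ⟨h, h2.1⟩
    · intro h2
      refine ⟨h2.2, ?_⟩
      have h4 : (a.erase i).card < a.card := card_erase_lt_of_mem h
      have h5 : ((a.erase i).card : ℝ) < a.card := by exact_mod_cast h4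
      linarith
  · rw [sd_of_notMem h, card_insert_of_notMem h]
    constructor
    · rintro ⟨-, h2⟩
      exfalso
      push_cast at h2
      linarith
    · exact fun h2 => absurd h2.1 h

private lemma level_neg {N : ℕ} (F : Finset (Finset (Fin N))) (a : Finset (Fin N)) :
    level F (fun X => -(X.card : ℝ)) a = ∅ := by
  classical
  rw [← level_card F a]
  unfold level
  refine filter_congr fun i _ => ?_
  constructor
  · exact fun h => ⟨h.1, neg_injective h.2⟩
  · exact fun h => ⟨h.1, congrArg Neg.neg h.2⟩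

private lemma rising_zero {N : ℕ} (F : Finset (Finset (Fin N))) (a : Finset (Fin N)) :
    rising F (fun _ => 0) a = ∅ := by
  unfold rising
  rw [filter_eq_empty_iff]
  rintro i - ⟨-, h2⟩
  exact lt_irrefl _ h2

private lemma level_zero {N : ℕ} (F : Finset (Finset (Fin N))) (a : Finset (Fin N)) :
    level F (fun _ => 0) a = neighbours F a := by
  classical
  unfold level neighbours
  refine filter_congr fun i _ => ?_
  exact ⟨fun h => h.1, fun h => ⟨h, rfl⟩⟩

/-! ### Splitting the sum -/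

/-- `τ ≤ 1` in general and `τ ≤ η` outside `{a ∈ F | d a < C}` -/
private lemma split {N : ℕ} (F : Finset (Finset (Fin N))) (τ : Finset (Fin N) → ℝ)
    (d : Finset (Fin N) → ℕ) (C : ℕ) (η : ℝ) (h1 : ∀ a ∈ F, τ a ≤ 1)
    (h2 : ∀ a ∈ F, C ≤ d a → τ a ≤ η) :
    ∑ a ∈ F, (1 + τ a) ≤ (1 + η) * F.card + (1 - η) * ((F.filter fun a => d a < C).card : ℝ) := by
  classical
  have h3 : ∀ a ∈ F, 1 + τ a ≤ (1 + η) + if d a < C then (1 - η) else 0 := by
    intro a ha
    by_cases h : d a < C
    · rw [if_pos h]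
      linarith [h1 a ha]
    · rw [if_neg h]
      linarith [h2 a ha (not_lt.1 h)]
  refine (sum_le_sum h3).trans (le_of_eq ?_)
  rw [sum_add_distrib, sum_const, nsmul_eq_mul, ← sum_filter, sum_const, nsmul_eq_mul]
  ring

private lemma tau_le_one (e : ℕ) : (2 - (1 / 2 : ℝ) ^ e) / ((e : ℝ) + 1) ≤ 1 := by
  rw [div_le_one (by positivity)]
  rcases Nat.eq_zero_or_pos e with rfl | he
  · norm_num
  · have h1 : (1 : ℝ) ≤ (e : ℝ) := by exact_mod_cast he
    have h2 : (0 : ℝ) < (1 / 2 : ℝ) ^ e := by positivity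
    linarith

private lemma tau_le {e C : ℕ} (h : C ≤ e) :
    (2 - (1 / 2 : ℝ) ^ e) / ((e : ℝ) + 1) ≤ 2 / ((C : ℝ) + 1) := by
  have h1 : (C : ℝ) ≤ (e : ℝ) := by exact_mod_cast h
  have h2 : (0 : ℝ) < (1 / 2 : ℝ) ^ e := by positivity
  refine (div_le_div_of_nonneg_right (by linarith : 2 - (1 / 2 : ℝ) ^ e ≤ 2)
    (by positivity)).trans ?_
  exact div_le_div_of_nonneg_left (by norm_num) (by positivity) (by linarith)

private lemma tau_six {e : ℕ} (h : 6 ≤ e) :
    (2 - (1 / 2 : ℝ) ^ e) / ((e : ℝ) + 1) ≤ 0.2835 := by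
  rcases Nat.eq_or_lt_of_le h with rfl | h'
  · norm_num
  · refine (tau_le (C := 7) h').trans ?_
    norm_num

private lemma half_pow_le_one (p : ℕ) : (1 / 2 : ℝ) ^ p ≤ 1 :=
  pow_le_one₀ (by norm_num) (by norm_num)

private lemma half_pow_le {p : ℕ} (h : 2 ≤ p) : (1 / 2 : ℝ) ^ p ≤ 1 / 4 := by
  refine (pow_le_pow_of_le_one (by norm_num) (by norm_num) h).trans ?_
  norm_num

/-! ### The asymptotic statement -/

private lemma few (c : ℝ) (hc : 0 < c) (ε : ℝ) (hε : 0 < ε) : ∃ g : ℝ, 0 < g ∧ ∃ C n₀ : ℕ,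
    ∀ n ≥ n₀, ∀ F : Finset (Finset (Fin (2 * n))), (F.card : ℝ) ≤ c * 2 ^ n →
      (1 - g) * 4 ^ n ≤ ((unions F).card : ℝ) →
      (4 / c - c - ε) * 2 ^ n ≤ ((F.filter fun a => (neighbours F a).card < C).card : ℝ) := by
  classical
  obtain ⟨C, hC⟩ := exists_nat_gt (4 * c / ε)
  obtain ⟨n₀, hn₀⟩ := pow_unbounded_of_one_lt (32 / ε + c) (by norm_num : (1 : ℝ) < 2)
  refine ⟨min (ε * c / 32) (1 / 2), by positivity, C, n₀, fun n hn F hF hU => ?_⟩
  obtain ⟨g, hg⟩ : ∃ g, g = min (ε * c / 32) (1 / 2) := ⟨_, rfl⟩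
  rw [← hg] at hU
  have hg1 : g ≤ ε * c / 32 := by rw [hg]; exact min_le_left _ _
  have hg2 : g ≤ 1 / 2 := by rw [hg]; exact min_le_right _ _
  obtain ⟨T, hT⟩ : ∃ T : ℝ, T = 2 ^ n := ⟨_, rfl⟩
  have hT4 : (4 : ℝ) ^ n = T ^ 2 := by
    rw [hT, ← pow_mul, mul_comm n 2, pow_mul]
    norm_num
  have hTn : 32 / ε + c < T := by
    rw [hT]
    exact hn₀.trans_le (pow_le_pow_right₀ (by norm_num) hn)
  have hT0 : 0 < T := lt_trans (by positivity) hTn
  have h2N : (2 : ℝ) ^ (2 * n) = T ^ 2 := by rw [hT, pow_mul', sq]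
  have h0 := main F fun _ => 0
  simp only [rising_zero, level_zero, card_empty, pow_zero, one_mul] at h0
  have h1 := split F (fun a => (2 - (1 / 2 : ℝ) ^ (neighbours F a).card) /
    (((neighbours F a).card : ℝ) + 1)) (fun a => (neighbours F a).card) C (2 / ((C : ℝ) + 1))
    (fun a _ => tau_le_one _) (fun a _ h => tau_le h)
  obtain ⟨L, hL⟩ : ∃ L : ℝ, L = ((F.filter fun a => (neighbours F a).card < C).card : ℝ) :=
    ⟨_, rfl⟩
  rw [← hL] at h1 ⊢
  rw [hT4] at hU
  rw [← hT] at hF ⊢
  rw [h2N] at h0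
  have hL0 : 0 ≤ L := by rw [hL]; exact Nat.cast_nonneg _
  have hm0 : (0 : ℝ) ≤ F.card := Nat.cast_nonneg _
  obtain ⟨η, hη⟩ : ∃ η : ℝ, η = 2 / ((C : ℝ) + 1) := ⟨_, rfl⟩
  have hη0 : 0 ≤ η := by rw [hη]; positivity
  have hηc : η * c ≤ ε / 2 := by
    have h5 : 4 * c < ε * ((C : ℝ) + 1) := by
      rw [div_lt_iff₀ hε] at hC
      nlinarith
    have h6 : (0 : ℝ) < (C : ℝ) + 1 := by positivity
    rw [hη, div_mul_eq_mul_div, div_le_div_iff₀ h6 (by norm_num)]
    linarith
  rw [← hη] at h1
  -- the left-hand side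
  have hcT : c * T ≤ ε * c / 32 * T ^ 2 := by
    have h5 : 32 / ε ≤ T := by linarith
    rw [div_le_iff₀ hε] at h5
    have h6 : 0 ≤ (T * ε - 32) * (c * T) := mul_nonneg (by linarith) (by positivity)
    nlinarith
  have hcT' : c * T ≤ T ^ 2 := by nlinarith [div_pos (by norm_num : (0 : ℝ) < 32) hε]
  have hx : (1 - ε * c / 16) * T ^ 2 ≤ ((unions F).card : ℝ) - F.card := by
    have h5 : g * T ^ 2 ≤ ε * c / 32 * T ^ 2 := mul_le_mul_of_nonneg_right hg1 (by positivity)
    linarith
  have hx0 : (F.card : ℝ) ≤ (unions F).card := by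
    have h5 : F ⊆ unions F := by
      intro a ha
      unfold unions
      rw [mem_filter]
      exact ⟨mem_univ _, a, ha, a, ha, union_self a⟩
    exact_mod_cast card_le_card h5
  have hsq : (1 - ε * c / 8) * (T ^ 2) ^ 2 ≤ (((unions F).card : ℝ) - F.card) ^ 2 := by
    rcases le_total (1 - ε * c / 16) 0 with h5 | h5
    · have h6 : (1 - ε * c / 8) * (T ^ 2) ^ 2 ≤ 0 :=
        mul_nonpos_of_nonpos_of_nonneg (by nlinarith) (by positivity)
      exact h6.trans (sq_nonneg _)
    · have h6 : ((1 - ε * c / 16) * T ^ 2) ^ 2 ≤ (((unions F).card : ℝ) - F.card) ^ 2 :=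
        pow_le_pow_left₀ (by positivity) hx 2
      refine le_trans ?_ h6
      rw [mul_pow]
      refine mul_le_mul_of_nonneg_right ?_ (by positivity)
      nlinarith [sq_nonneg (ε * c / 16)]
  -- the right-hand side
  have hr : T ^ 2 * F.card * ∑ a ∈ F, (1 + (2 - (1 / 2 : ℝ) ^ (neighbours F a).card) /
      (((neighbours F a).card : ℝ) + 1)) ≤ T ^ 2 * (c * T) * ((1 + η) * (c * T) + L) := by
    have h5 : ∑ a ∈ F, (1 + (2 - (1 / 2 : ℝ) ^ (neighbours F a).card) /
        (((neighbours F a).card : ℝ) + 1)) ≤ (1 + η) * (c * T) + L := by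
      refine h1.trans ?_
      have h6 : (1 + η) * (F.card : ℝ) ≤ (1 + η) * (c * T) :=
        mul_le_mul_of_nonneg_left hF (by linarith)
      nlinarith [mul_nonneg hη0 hL0]
    have h7 : (0 : ℝ) ≤ (1 + η) * (c * T) + L := by positivity
    refine (mul_le_mul_of_nonneg_left h5 (by positivity)).trans ?_
    refine mul_le_mul_of_nonneg_right ?_ h7
    exact mul_le_mul_of_nonneg_left hF (by positivity)
  have hfin : 4 * ((1 - ε * c / 8) * (T ^ 2) ^ 2) ≤ T ^ 2 * (c * T) * ((1 + η) * (c * T) + L) :=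
    (mul_le_mul_of_nonneg_left hsq (by norm_num)).trans (h0.trans hr)
  have hfin' : 4 * (1 - ε * c / 8) * T ≤ c * ((1 + η) * (c * T) + L) := by
    have h5 : (4 * (1 - ε * c / 8) * T) * T ^ 3 ≤ (c * ((1 + η) * (c * T) + L)) * T ^ 3 := by
      nlinarith
    exact le_of_mul_le_mul_right h5 (by positivity)
  have h8 : (4 / c - c - ε) * T * c ≤ L * c := by
    have h9 : (4 / c - c - ε) * T * c = (4 - c * c - ε * c) * T := by
      field_simp
    rw [h9]
    have h10 : η * c * (c * T) ≤ ε / 2 * (c * T) :=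
      mul_le_mul_of_nonneg_right hηc (by positivity)
    nlinarith
  exact le_of_mul_le_mul_right h8 hc

/-! ### The explicit statement -/

private lemma explicit {n : ℕ} (hn : 9 ≤ n) (F : Finset (Finset (Fin (2 * n))))
    (hF : (F.card : ℝ) ≤ 1.75 * 2 ^ n) (hU : unions F = univ) (η : ℝ) (hη0 : 0 ≤ η) (hη1 : η < 1)
    (L : ℝ) (h : 4 * (((unions F).card : ℝ) - F.card) ^ 2 ≤
      2 ^ (2 * n) * F.card * ((1 + η) * F.card + (1 - η) * L)) (hL0 : 0 ≤ L) :
    (2.27 - 1.75 * (1 + η)) * 2 ^ n ≤ (1 - η) * L := by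
  obtain ⟨T, hT⟩ : ∃ T : ℝ, T = 2 ^ n := ⟨_, rfl⟩
  have h2N : (2 : ℝ) ^ (2 * n) = T ^ 2 := by rw [hT, pow_mul', sq]
  have hT512 : 512 ≤ T := by
    rw [hT]
    have h5 : (2 : ℝ) ^ 9 ≤ 2 ^ n := pow_le_pow_right₀ (by norm_num) hn
    norm_num at h5
    exact h5
  have hUc : ((unions F).card : ℝ) = T ^ 2 := by
    rw [hU, card_univ, Fintype.card_finset, Fintype.card_fin]
    push_cast
    exact h2N
  rw [h2N, hUc] at h
  rw [← hT] at hF ⊢
  have hm0 : (0 : ℝ) ≤ F.card := Nat.cast_nonneg _
  have h1 : (T ^ 2 - 1.75 * T) ^ 2 ≤ (T ^ 2 - F.card) ^ 2 := by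
    refine pow_le_pow_left₀ (by nlinarith) (by linarith) 2
  have hL1 : 0 ≤ (1 - η) * L := mul_nonneg (by linarith) hL0
  have h2 : T ^ 2 * F.card * ((1 + η) * F.card + (1 - η) * L) ≤
      T ^ 2 * (1.75 * T) * ((1 + η) * (1.75 * T) + (1 - η) * L) := by
    have h3 : (1 + η) * (F.card : ℝ) + (1 - η) * L ≤ (1 + η) * (1.75 * T) + (1 - η) * L := by
      have := mul_le_mul_of_nonneg_left hF (by linarith : (0 : ℝ) ≤ 1 + η)
      linarith
    have h4 : 0 ≤ (1 + η) * (1.75 * T) + (1 - η) * L := by positivity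
    refine (mul_le_mul_of_nonneg_left h3 (by positivity)).trans ?_
    refine mul_le_mul_of_nonneg_right ?_ h4
    exact mul_le_mul_of_nonneg_left hF (by positivity)
  have h5 : 4 * (T ^ 2 - 1.75 * T) ^ 2 ≤
      T ^ 2 * (1.75 * T) * ((1 + η) * (1.75 * T) + (1 - η) * L) :=
    (mul_le_mul_of_nonneg_left h1 (by norm_num)).trans (h.trans h2)
  obtain ⟨X, hX⟩ : ∃ X : ℝ, X = (1 + η) * (1.75 * T) + (1 - η) * L := ⟨_, rfl⟩
  rw [← hX] at h5
  have h6 : 4 * (T - 3.5) ≤ 1.75 * X := by
    have h7 : (4 * (T - 3.5)) * T ^ 3 ≤ (1.75 * X) * T ^ 3 := by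
      have h8 : 0 ≤ T ^ 2 := by positivity
      nlinarith
    exact le_of_mul_le_mul_right h7 (by positivity)
  rw [hX] at h6
  linarith

private lemma upper_few {n : ℕ} (hn : 9 ≤ n) (F : Finset (Finset (Fin (2 * n))))
    (hF : (F.card : ℝ) ≤ 1.75 * 2 ^ n) (hU : unions F = univ) :
    (2 : ℝ) ^ n / 10 < ((F.filter fun a => (upper F a).card < 2).card : ℝ) := by
  have h0 := main F fun X => (X.card : ℝ)
  simp only [rising_card, level_card, card_empty, pow_zero, Nat.cast_zero] at h0
  have h1 := split F (fun a => (1 / 2 : ℝ) ^ (upper F a).card * ((2 - 1) / (0 + 1)))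
    (fun a => (upper F a).card) 2 (1 / 4)
    (fun a _ => by
      have := half_pow_le_one (upper F a).card
      linarith) (fun a _ h => by
      have := half_pow_le h
      linarith)
  have h2 := explicit hn F hF hU (1 / 4) (by norm_num) (by norm_num)
    ((F.filter fun a => (upper F a).card < 2).card : ℝ)
    (h0.trans (mul_le_mul_of_nonneg_left h1 (by positivity))) (Nat.cast_nonneg _)
  have h3 : (0 : ℝ) < 2 ^ n := by positivity
  linarith

private lemma lower_few {n : ℕ} (hn : 9 ≤ n) (F : Finset (Finset (Fin (2 * n))))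
    (hF : (F.card : ℝ) ≤ 1.75 * 2 ^ n) (hU : unions F = univ) :
    (2 : ℝ) ^ n / 10 < ((F.filter fun a => (lower F a).card < 2).card : ℝ) := by
  have h0 := main F fun X => -(X.card : ℝ)
  simp only [rising_neg, level_neg, card_empty, pow_zero, Nat.cast_zero] at h0
  have h1 := split F (fun a => (1 / 2 : ℝ) ^ (lower F a).card * ((2 - 1) / (0 + 1)))
    (fun a => (lower F a).card) 2 (1 / 4)
    (fun a _ => by
      have := half_pow_le_one (lower F a).card
      linarith) (fun a _ h => by
      have := half_pow_le h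
      linarith)
  have h2 := explicit hn F hF hU (1 / 4) (by norm_num) (by norm_num)
    ((F.filter fun a => (lower F a).card < 2).card : ℝ)
    (h0.trans (mul_le_mul_of_nonneg_left h1 (by positivity))) (Nat.cast_nonneg _)
  have h3 : (0 : ℝ) < 2 ^ n := by positivity
  linarith

private lemma neighbours_few {n : ℕ} (hn : 9 ≤ n) (F : Finset (Finset (Fin (2 * n))))
    (hF : (F.card : ℝ) ≤ 1.75 * 2 ^ n) (hU : unions F = univ) :
    3 / 100 * (2 : ℝ) ^ n < ((F.filter fun a => (neighbours F a).card < 6).card : ℝ) := by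
  have h0 := main F fun _ => 0
  simp only [rising_zero, level_zero, card_empty, pow_zero, one_mul] at h0
  have h1 := split F (fun a => (2 - (1 / 2 : ℝ) ^ (neighbours F a).card) /
    (((neighbours F a).card : ℝ) + 1)) (fun a => (neighbours F a).card) 6 0.2835
    (fun a _ => tau_le_one _) (fun a _ h => tau_six h)
  have h2 := explicit hn F hF hU 0.2835 (by norm_num) (by norm_num)
    ((F.filter fun a => (neighbours F a).card < 6).card : ℝ)
    (h0.trans (mul_le_mul_of_nonneg_left h1 (by positivity))) (Nat.cast_nonneg _)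
  have h3 : (0 : ℝ) < 2 ^ n := by positivity
  linarith

/-- **The neighbours inequality and its consequences for small 2-bases.** -/
theorem result :
    (∀ (N : ℕ) (F : Finset (Finset (Fin N))) (f : Finset (Fin N) → ℝ),
      4 * (((unions F).card : ℝ) - F.card) ^ 2 ≤ 2 ^ N * F.card * ∑ a ∈ F,
        (1 + (1 / 2 : ℝ) ^ (rising F f a).card *
          ((2 - (1 / 2 : ℝ) ^ (level F f a).card) / ((level F f a).card + 1)))) ∧
    (∀ c : ℝ, 0 < c → ∀ ε : ℝ, 0 < ε → ∃ g : ℝ, 0 < g ∧ ∃ C n₀ : ℕ, ∀ n ≥ n₀,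
      ∀ F : Finset (Finset (Fin (2 * n))), (F.card : ℝ) ≤ c * 2 ^ n →
        (1 - g) * 4 ^ n ≤ ((unions F).card : ℝ) →
        (4 / c - c - ε) * 2 ^ n ≤
          ((F.filter fun a => (neighbours F a).card < C).card : ℝ)) ∧
    (∀ n : ℕ, 9 ≤ n → ∀ F : Finset (Finset (Fin (2 * n))), (F.card : ℝ) ≤ 1.75 * 2 ^ n →
      unions F = univ →
        (2 : ℝ) ^ n / 10 < ((F.filter fun a => (upper F a).card ≤ 1).card : ℝ) ∧
        (2 : ℝ) ^ n / 10 < ((F.filter fun a => (lower F a).card ≤ 1).card : ℝ) ∧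
        3 / 100 * (2 : ℝ) ^ n < ((F.filter fun a => (neighbours F a).card ≤ 5).card : ℝ)) := by
  refine ⟨fun N F f => main F f, few, fun n hn F hF hU => ⟨?_, ?_, ?_⟩⟩
  · have h := upper_few hn F hF hU
    simpa only [Nat.lt_succ_iff] using h
  · have h := lower_few hn F hF hU
    simpa only [Nat.lt_succ_iff] using h
  · have h := neighbours_few hn F hF hU
    simpa only [Nat.lt_succ_iff] using h

end Pool.Agent.Results.MP_2b8540_co.Neighbours
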