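import Pool.Agent.Work.MP_2b8540_co.S.MainNR
import Pool.Agent.Work.MP_2b8540_co.S.ClassD
import Pool.Agent.Work.MP_2b8540_co.S.ClassI
import Pool.Agent.Work.MP_2b8540_co.S.ClassB
import Pool.Agent.Work.MP_2b8540_co.S.ClassL
import Pool.Agent.Work.MP_2b8540_co.S.ClassN

/-!
# 2-bases of the Boolean cube smaller than `(2 - o(1)) 2 ^ n` are unstructured

A set of vectors of `{0,1}^(2n)` is regarded as a family `F` of subsets of `Fin (2n)`; Boolean
addition is the union. Let `c < 2` and let `F` be a family of at most `c 2^n` sets whose pairwise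
unions are (almost) all subsets. Then for every list of at most `2 ^ (γ n)` structured families, more
than two thirds of the members of `F` lie outside all of them, and more than eight ninths of all
subsets are unions of two members of `F` only in such a way that both members lie outside all of
them. In particular every 2-basis of `{0,1}^(2n)` which is covered by `2 ^ (γ n)` structured families
(such as the 2-basis with `2^(n+1) - 1` elements, covered by two subcubes) has at least
`(2 - o(1)) 2 ^ n` elements.

Structured families are: families with few pairwise unions (for example union-closed families);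
families with a small set of informative coordinates (for example affine subspaces, graphs of functions on `(1 + o(1)) n` coordinates, families
invariant under a linear space of translations of linear dimension); families satisfying linearly
many disjoint local constraints; families of biased density on a large set; small families
recognised by branching programs of bounded width; and in general all families without large
subfamilies whose marginals on small sets look like those of random sets of density `1 - 1/√2`.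
-/

namespace Pool.Agent.Results.MP_2b8540_co.StructuredFamilies

open Finset

/-- The sets which are unions of two (not necessarily distinct) members of `F`. -/
noncomputable def unions {N : ℕ} (F : Finset (Finset (Fin N))) : Finset (Finset (Fin N)) :=
  open Classical in
  (Finset.univ : Finset (Finset (Fin N))).filter fun S => ∃ a ∈ F, ∃ b ∈ F, a ∪ b = S

/-- The sets which are unions of a member of `G` and a member of `F`. -/
noncomputable def touching {N : ℕ} (F G : Finset (Finset (Fin N))) : Finset (Finset (Fin N)) :=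
  open Classical in
  (Finset.univ : Finset (Finset (Fin N))).filter fun S => ∃ a ∈ G, ∃ b ∈ F, a ∪ b = S

/-- At most `2 ^ (1.07 n)` sets are unions of two members of `P` (for example a union-closed family
with at most `2 ^ (1.07 n)` members). -/
def SmallDoubling (n : ℕ) (P : Finset (Finset (Fin (2 * n)))) : Prop :=
  ((unions P).card : ℝ) ≤ 2 ^ ((1.07 : ℝ) * n)

/-- There is a set `I` of coordinates such that no trace on `I` is shared by more than
`2 ^ ((1 - 1/k) n - 7/8 |I|)` members of `P`. -/
def Informative (k n : ℕ) (P : Finset (Finset (Fin (2 * n)))) : Prop :=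
  ∃ I : Finset (Fin (2 * n)), ∀ w : Finset (Fin (2 * n)),
    ((P.filter fun a => a ∩ I = w).card : ℝ) ≤
      2 ^ ((1 - 1 / (k : ℝ)) * n - 7 / 8 * (I.card : ℝ))

/-- There are at least `n / k` pairwise disjoint sets of at most `k` coordinates such that on each of
them some trace does not occur in `P`. -/
def LocallyConstrained (k n : ℕ) (P : Finset (Finset (Fin (2 * n)))) : Prop :=
  ∃ 𝒯 : Finset (Finset (Fin (2 * n))), (∀ S ∈ 𝒯, ∀ T ∈ 𝒯, S ≠ T → Disjoint S T) ∧
    (∀ T ∈ 𝒯, T.card ≤ k) ∧ n ≤ k * 𝒯.card ∧ ∀ T ∈ 𝒯, ∃ w, w ⊆ T ∧ ∀ a ∈ P, a ∩ T ≠ w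

/-- On some set `X` of at least `n / k` coordinates all members of `P` have density at least
`1 - 1/√2 + 1/k`, or all have density at most `1 - 1/√2 - 1/k`. -/
def Biased (k n : ℕ) (P : Finset (Finset (Fin (2 * n)))) : Prop :=
  ∃ X : Finset (Fin (2 * n)), n ≤ k * X.card ∧
    ((∀ a ∈ P, (1 - 1 / √2 + 1 / (k : ℝ)) * X.card ≤ ((a ∩ X).card : ℝ)) ∨
      (∀ a ∈ P, ((a ∩ X).card : ℝ) ≤ (1 - 1 / √2 - 1 / (k : ℝ)) * X.card))

/-- The traces on the complement of `X` of those members of `P` whose trace on `X` is `a`. -/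
def residual {N : ℕ} (P : Finset (Finset (Fin N))) (X a : Finset (Fin N)) :
    Finset (Finset (Fin N)) :=
  (P.filter fun c => c ∩ X = a).image fun c => c \ X

/-- The number of different residual families of `P` after reading the coordinates in `X`. -/
def width {N : ℕ} (P : Finset (Finset (Fin N))) (X : Finset (Fin N)) : ℕ :=
  (P.image fun c => residual P X (c ∩ X)).card

/-- The coordinates can be read in steps of at most `k` coordinates, such that the product of
`P.card` and of the numbers of residual families before each step is at most `2 ^ (1.7 n)`. -/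
def Narrow (k n : ℕ) (P : Finset (Finset (Fin (2 * n)))) : Prop :=
  ∃ (r : ℕ) (X : ℕ → Finset (Fin (2 * n))), X 0 = ∅ ∧ X r = univ ∧
    (∀ j < r, X j ⊂ X (j + 1) ∧ (X (j + 1) \ X j).card ≤ k) ∧
    (P.card : ℝ) * ∏ j ∈ range r, (width P (X j) : ℝ) ≤ 2 ^ ((1.7 : ℝ) * n)

/-- The proportion of the members of `U` which are disjoint from `T`. -/
noncomputable def missing {N : ℕ} (U : Finset (Finset (Fin N))) (T : Finset (Fin N)) : ℝ :=
  ((U.filter fun a => Disjoint a T).card : ℝ) / (U.card : ℝ)

/-- Every subfamily `U` of `P` with at least `2 ^ ((1 - 1/k) n)` members differs from random sets of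
density `1 - 1/√2`: there are disjoint sets `T i` of at most `k` elements (some may be empty) such
that the sum of the distances of the proportion of members of `U` disjoint from `T i` from
`(1/√2) ^ |T i|` is at least `n / k`. -/
def NonRandom (k n : ℕ) (P : Finset (Finset (Fin (2 * n)))) : Prop :=
  ∀ U ⊆ P, (2 : ℝ) ^ ((1 - 1 / (k : ℝ)) * n) ≤ (U.card : ℝ) →
    ∃ T : Fin (2 * n) → Finset (Fin (2 * n)),
      ((∀ i j, i ≠ j → Disjoint (T i) (T j)) ∧ ∀ i, (T i).card ≤ k) ∧
      (n : ℝ) / k ≤ ∑ i, |missing U (T i) - (1 / √2) ^ (T i).card|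

/-- Structured families with parameter `k`. -/
def Structured (k n : ℕ) (P : Finset (Finset (Fin (2 * n)))) : Prop :=
  SmallDoubling n P ∨ Informative k n P ∨ LocallyConstrained k n P ∨ Biased k n P ∨ Narrow k n P ∨
    NonRandom k n P

private lemma q_eq : EMS.q = 1 / √2 := by
  unfold EMS.q
  have h : √2 * √2 = 2 := Real.mul_self_sqrt (by norm_num)
  have h0 : √2 ≠ 0 := by positivity
  field_simp
  nlinarith

private lemma exists_K (k : ℕ) (hk : 1 ≤ k) : ∃ K : ℕ, 1 ≤ K ∧
    ∀ (n : ℕ) (P : Finset (Finset (Fin (2 * n)))), Structured k n P → EMS.NonRandom K n P := by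
  obtain ⟨K1, h1, hU⟩ := EMS.classD
  obtain ⟨K2, h2, hI⟩ := EMS.classI k hk
  obtain ⟨K3, h3, hL⟩ := EMS.classL k hk
  obtain ⟨K4, h4, hB⟩ := EMS.classB k hk
  obtain ⟨K5, h5, hN⟩ := EMS.classN k hk
  refine ⟨K1 + K2 + K3 + K4 + K5 + k, by omega, fun n P hP => ?_⟩
  rcases hP with h | h | h | h | h | h
  · exact EMS.nonRandom_mono h1 (by omega) (hU n P h)
  · exact EMS.nonRandom_mono h2 (by omega) (hI n P h)
  · exact EMS.nonRandom_mono h3 (by omega) (hL n P h)
  · refine EMS.nonRandom_mono h4 (by omega) (hB n P ?_)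
    obtain ⟨X, hX, h⟩ := h
    refine ⟨X, hX, ?_⟩
    rw [q_eq]
    exact h
  · exact EMS.nonRandom_mono h5 (by omega) (hN n P h)
  · refine EMS.nonRandom_mono hk (by omega) ?_
    intro U hU hc
    obtain ⟨T, hT, hd⟩ := h U hU hc
    refine ⟨T, hT, ?_⟩
    unfold EMS.dev EMS.av
    rw [q_eq]
    exact hd

/-- **Theorem.** Let `0 < c < 2`, `η > 0`, `k ≥ 1`. There are `γ > 0` and `n₀` such that for all
`n ≥ n₀`: let `F` be a family of at most `c 2^n` subsets of a `2n`-set such that at least
`(1 - γ) 4^n` sets are unions of two members of `F`, let `𝒬` be a collection of at most `2 ^ (γ n)`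
structured families, and `G` the set of those members of `F` which belong to some `P ∈ 𝒬`. Then at
least `((c + 2 √(3 - c² / 2)) / 3 - η) 2^n` members of `F` are not in `G`, and at most
`((c - √(3 - c² / 2))² / 9 + η) 4^n` sets are unions of a member of `G` and a member of `F`. -/
theorem result : ∀ c η : ℝ, 0 < c → c < 2 → 0 < η → ∀ k : ℕ, 1 ≤ k →
    ∃ γ : ℝ, 0 < γ ∧ ∃ n₀ : ℕ, ∀ n ≥ n₀, ∀ F : Finset (Finset (Fin (2 * n))),
      (F.card : ℝ) ≤ c * 2 ^ n → (1 - γ) * 4 ^ n ≤ ((unions F).card : ℝ) →
      ∀ 𝒬 : Finset (Finset (Finset (Fin (2 * n)))), (𝒬.card : ℝ) ≤ 2 ^ (γ * n) →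
      (∀ P ∈ 𝒬, Structured k n P) →
      ∀ G : Finset (Finset (Fin (2 * n))), (∀ a, a ∈ G ↔ a ∈ F ∧ ∃ P ∈ 𝒬, a ∈ P) →
        ((c + 2 * √(3 - c ^ 2 / 2)) / 3 - η) * 2 ^ n ≤ ((F \ G).card : ℝ) ∧
        ((touching F G).card : ℝ) ≤ ((c - √(3 - c ^ 2 / 2)) ^ 2 / 9 + η) * 4 ^ n := by
  intro c η hc hc2 hη k hk
  obtain ⟨K, hK, hS⟩ := exists_K k hk
  obtain ⟨γ, hγ, n₀, h⟩ := EMS.main_nr hc hc2 hη K hK
  refine ⟨γ, hγ, n₀, fun n hn F hF hcov 𝒬 h𝒬 hst G hG => ?_⟩
  exact h n hn F hF hcov 𝒬 h𝒬 (fun P hP => hS n P (hst P hP)) G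
    (fun a ha => ((hG a).1 ha).1) (fun a ha => ((hG a).1 ha).2)

end Pool.Agent.Results.MP_2b8540_co.StructuredFamilies
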